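import Mathlib

/-!
# Sums of the Möbius function over convex parts of intervals

`m` is the Möbius function `μ(a, ·)` of a poset.  If the elements below `x` are covered by the
elements `c ∈ C x` and `∑_{c ∈ C x} B c ≤ B x`, then the sum of `m` over every order-convex subset
of `[a, x]` is at most `B x` in absolute value.
-/

set_option autoImplicit false

namespace Pool.Agent.PPB

open Finset

/-- order-convex finite sets -/
def Cvx {α : Type*} [PartialOrder α] (T : Finset α) : Prop :=
  ∀ y ∈ T, ∀ w ∈ T, ∀ z, y ≤ z → z ≤ w → z ∈ T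

open Classical in
theorem piece {α : Type*} [PartialOrder α] [LocallyFiniteOrder α] (a : α) (m : α → ℤ)
    (B : α → ℕ) (s : Finset α)
    (ih : ∀ c ∈ s, ∀ T : Finset α, T ⊆ Finset.Icc a c → Cvx T → |∑ y ∈ T, m y| ≤ B c) :
    ∀ T : Finset α, Cvx T → (∀ y ∈ T, a ≤ y ∧ ∃ c ∈ s, y ≤ c) →
      |∑ y ∈ T, m y| ≤ ∑ c ∈ s, (B c : ℤ) := by
  induction s using Finset.induction_on with
  | empty =>
    intro T _ h
    have hT : T = ∅ := by
      rw [Finset.eq_empty_iff_forall_notMem]
      intro y hy
      obtain ⟨c, hc, -⟩ := (h y hy).2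
      simp at hc
    subst hT
    simp
  | insert c s hcs ihs =>
    intro T hT h
    have e := Finset.sum_filter_add_sum_filter_not T (fun y => y ≤ c) m
    have h1 : |∑ y ∈ T.filter (fun y => y ≤ c), m y| ≤ B c := by
      refine ih c (Finset.mem_insert_self c s) _ ?_ ?_
      · intro y hy
        rw [Finset.mem_filter] at hy
        rw [Finset.mem_Icc]
        exact ⟨(h y hy.1).1, hy.2⟩
      · intro y hy w hw z hyz hzw
        rw [Finset.mem_filter] at hy hw ⊢
        exact ⟨hT y hy.1 w hw.1 z hyz hzw, hzw.trans hw.2⟩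
    have h2 : |∑ y ∈ T.filter (fun y => ¬ y ≤ c), m y| ≤ ∑ c ∈ s, (B c : ℤ) := by
      refine ihs (fun c' hc' => ih c' (Finset.mem_insert_of_mem hc')) _ ?_ ?_
      · intro y hy w hw z hyz hzw
        rw [Finset.mem_filter] at hy hw ⊢
        exact ⟨hT y hy.1 w hw.1 z hyz hzw, fun hzc => hy.2 (hyz.trans hzc)⟩
      · intro y hy
        rw [Finset.mem_filter] at hy
        obtain ⟨h3, c', hc', h4⟩ := h y hy.1
        refine ⟨h3, c', ?_, h4⟩
        rcases Finset.mem_insert.1 hc' with rfl | h5
        · exact absurd h4 hy.2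
        · exact h5
    rw [← e, Finset.sum_insert hcs]
    exact (abs_add_le _ _).trans (add_le_add h1 h2)

open Classical in
theorem conv_bound {α : Type*} [PartialOrder α] [LocallyFiniteOrder α] (a : α) (m : α → ℤ)
    (h1 : m a = 1) (h0 : ∀ x, a < x → ∑ y ∈ Finset.Icc a x, m y = 0)
    (C : α → Finset α) (B r : α → ℕ) (hB : 1 ≤ B a)
    (hC : ∀ x y, a ≤ y → y < x → ∃ c ∈ C x, y ≤ c) (hr : ∀ x, ∀ c ∈ C x, r c < r x)
    (hs : ∀ x, a < x → ∑ c ∈ C x, B c ≤ B x) :
    ∀ (N : ℕ) (x : α), a ≤ x → r x ≤ N → ∀ T : Finset α, T ⊆ Finset.Icc a x → Cvx T →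
      |∑ y ∈ T, m y| ≤ B x := by
  intro N
  induction N using Nat.strong_induction_on with
  | _ N IH =>
  intro x hax hN T hT hcv
  rcases hax.eq_or_lt with rfl | hlt
  · have h2 : T ⊆ {a} := by
      intro y hy
      have := Finset.mem_Icc.1 (hT hy)
      rw [Finset.mem_singleton]
      exact le_antisymm this.2 this.1
    rcases Finset.subset_singleton_iff.1 h2 with rfl | rfl
    · simp
    · rw [Finset.sum_singleton, h1]
      simpa using hB
  · -- sets which do not contain `x`
    have main : ∀ S : Finset α, S ⊆ Finset.Icc a x → Cvx S → x ∉ S → |∑ y ∈ S, m y| ≤ B x := by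
      intro S hS hcS hx
      have h3 := piece a m B (C x) (fun c hc U hU hcU => by
        by_cases hac : a ≤ c
        · exact IH (r c) ((hr x c hc).trans_le hN) c hac le_rfl U hU hcU
        · have : U = ∅ := by
            rw [Finset.eq_empty_iff_forall_notMem]
            intro y hy
            have := Finset.mem_Icc.1 (hU hy)
            exact hac (this.1.trans this.2)
          subst this
          simp) S hcS (fun y hy => by
            have h4 := Finset.mem_Icc.1 (hS hy)
            refine ⟨h4.1, ?_⟩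
            exact hC x y h4.1 (lt_of_le_of_ne h4.2 (fun h => hx (h ▸ hy))))
      refine h3.trans ?_
      exact_mod_cast hs x hlt
    by_cases hx : x ∈ T
    · have e := Finset.sum_sdiff (f := m) hT
      rw [h0 x hlt] at e
      have h4 : ∑ y ∈ T, m y = - ∑ y ∈ Finset.Icc a x \ T, m y := by linarith
      rw [h4, abs_neg]
      refine main _ Finset.sdiff_subset ?_ (fun h => (Finset.mem_sdiff.1 h).2 hx)
      intro y hy w hw z hyz hzw
      rw [Finset.mem_sdiff, Finset.mem_Icc] at hy hw ⊢
      refine ⟨⟨hy.1.1.trans hyz, hzw.trans hw.1.2⟩, fun hz => hw.2 ?_⟩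
      exact hcv z hz x hx w hzw hw.1.2
    · exact main T hT hcv hx

end Pool.Agent.PPB
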